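import Pool.Agent.Helper63.RC.Final

/-! # Generic functions give the most rigid G-circulants (MP_4291f1_lc) -/

set_option autoImplicit false

namespace Pool.Agent.Results.MP_4291f1_lc.GenericExtremal

open Pool.Agent.Helper63.RC

/-- If the circulant of one function `f₀` with algebraically independent values is brought to rank
at most `r` by changing entries in certain places, then the circulant of every `f` is brought to
rank at most `2 r` by changing entries in the same places. -/
theorem result {G : Type} [Group G] [Fintype G] {f₀ : G → ℂ} (hf : AlgebraicIndependent ℚ f₀)
    (S : Matrix G G ℂ) (f : G → ℂ) :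
    ∃ S' : Matrix G G ℂ, (∀ g h, S g h = 0 → S' g h = 0) ∧
      (Matrix.of (fun g h : G => f (g * h⁻¹)) - S').rank ≤
        2 * (Matrix.of (fun g h : G => f₀ (g * h⁻¹)) - S).rank := by
  classical
  exact generic_extremal hf S f

end Pool.Agent.Results.MP_4291f1_lc.GenericExtremal
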