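import Pool.Agent.Helper63.RC.Final

/-! # Generic G-circulants of groups with a representation of large degree (MP_4291f1_lc) -/

set_option autoImplicit false

namespace Pool.Agent.Results.MP_4291f1_lc.LargeDegree

open Pool.Agent.Helper63.RC

/-- Groups of order `n` with an irreducible representation of degree at least `n ^ c`: for `f` with
algebraically independent values the `G`-circulant matrix of `f` is rigid with exponent `1 + δ`,
for every `δ < c (ω - 2) / 2`. -/
theorem result (c δ : ℝ) (hc : 0 < c) (hδ : δ < c * (omega - 2) / 2) :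
    ∃ N : ℕ, ∀ (G : Type) [Group G] [Fintype G], N ≤ Fintype.card G →
      ∀ (b : ℕ) (ψ : MonoidAlgebra ℂ G →ₐ[ℂ] Matrix (Fin b) (Fin b) ℂ),
        Function.Surjective ψ → (Fintype.card G : ℝ) ^ c ≤ b →
        ∀ f : G → ℂ, AlgebraicIndependent ℚ f →
          ∀ S : Matrix G G ℂ,
            (Set.ncard {p : G × G | S p.1 p.2 ≠ 0} : ℝ) ≤ (Fintype.card G : ℝ) ^ (1 + δ) →
              (Fintype.card G : ℝ) / 32 <
                ((Matrix.of (fun g h : G => f (g * h⁻¹)) - S).rank : ℝ) := by
  obtain ⟨N, hN⟩ := irrep_rigid c δ hc hδ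
  refine ⟨N, fun G _ _ hG b ψ hψ hb f hf S hS => ?_⟩
  have h := hN G hG (Fin b) ψ hψ (by rw [Fintype.card_fin]; exact hb) f hf S hS
  linarith

end Pool.Agent.Results.MP_4291f1_lc.LargeDegree
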