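import Pool.Agent.Helper63.RC.Final

/-! # Rigid G-circulants and the exponent of matrix multiplication (MP_4291f1_lc)

Either Q1 has a positive answer or the exponent of matrix multiplication over the complex
numbers is 2. -/

set_option autoImplicit false

namespace Pool.Agent.Results.MP_4291f1_lc.OmegaTwo

open Pool.Agent.Helper63.RC

/-- A negative answer to Q1 implies that the exponent of matrix multiplication is 2. -/
theorem result :
    (∃ ε δ : ℝ, 0 < ε ∧ 0 < δ ∧
      ∀ N : ℕ, ∃ (G : Type) (_ : Group G) (_ : Fintype G) (f : G → ℂ),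
        N ≤ Fintype.card G ∧
        ∀ S : Matrix G G ℂ,
          (Set.ncard {p : G × G | S p.1 p.2 ≠ 0} : ℝ) ≤ (Fintype.card G : ℝ) ^ (1 + δ) →
            ε * (Fintype.card G : ℝ) <
              ((Matrix.of (fun g h : G => f (g * h⁻¹)) - S).rank : ℝ)) ∨ omega = 2 :=
  q1_or_omega

end Pool.Agent.Results.MP_4291f1_lc.OmegaTwo
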