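import Pool.Agent.Helper63.RC.Final

/-! # Generic circulants of SL(2,p) (MP_4291f1_lc) -/

set_option autoImplicit false

namespace Pool.Agent.Results.MP_4291f1_lc.SLTwo

open Pool.Agent.Helper63.RC

/-- For `f : SL(2,p) → ℂ` with algebraically independent values, the circulant matrix of `f` is rigid
with exponent `1 + δ` for every `δ < (ω - 2) / 3` and all large `p`. -/
theorem result (δ : ℝ) (hδ : δ < (omega - 2) / 3) :
    ∃ p₀ : ℕ, ∀ (p : ℕ) [Fact p.Prime], p₀ ≤ p →
      ∀ f : Matrix.SpecialLinearGroup (Fin 2) (ZMod p) → ℂ, AlgebraicIndependent ℚ f →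
        ∀ S : Matrix (Matrix.SpecialLinearGroup (Fin 2) (ZMod p))
            (Matrix.SpecialLinearGroup (Fin 2) (ZMod p)) ℂ,
          (Set.ncard {q : Matrix.SpecialLinearGroup (Fin 2) (ZMod p) ×
              Matrix.SpecialLinearGroup (Fin 2) (ZMod p) | S q.1 q.2 ≠ 0} : ℝ) ≤
            (Fintype.card (Matrix.SpecialLinearGroup (Fin 2) (ZMod p)) : ℝ) ^ (1 + δ) →
          (Fintype.card (Matrix.SpecialLinearGroup (Fin 2) (ZMod p)) : ℝ) / 32 <
            ((Matrix.of (fun g h : Matrix.SpecialLinearGroup (Fin 2) (ZMod p) => f (g * h⁻¹))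
              - S).rank : ℝ) := by
  obtain ⟨p₀, h⟩ := sl2_rigid δ hδ
  refine ⟨p₀, fun p _ hp f hf S hS => ?_⟩
  have := h p hp f hf S hS
  linarith

end Pool.Agent.Results.MP_4291f1_lc.SLTwo
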